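import Pool.Agent.W792.GK.Stm

/-! GK project (helper792), part GK-CIRC2 (helper930): Chebyshev entries of circulant matrices are
Fourier coefficients. -/

set_option autoImplicit false

namespace Pool.Agent.W930.GKCirc2

open Pool.Agent.W792.GK MeasureTheory

noncomputable section

theorem ch_map {A B : Type*} [Ring A] [Algebra ℝ A] [Ring B] [Algebra ℝ B] (φ : A →ₐ[ℝ] B)
    (c : ℝ) (a : A) (n : ℕ) :
    φ (ch c a n) = ch c (φ a) n ∧ φ (ch c a (n + 1)) = ch c (φ a) (n + 1) := by
  induction n with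
  | zero => simp [ch]
  | succ n ih =>
    refine ⟨ih.2, ?_⟩
    show φ (a * ch c a (n + 1) - c • ch c a n) = φ a * ch c (φ a) (n + 1) - c • ch c (φ a) n
    rw [map_sub, map_mul, map_smul, ih.1, ih.2]

local instance : MeasureSpace UnitAddCircle := ⟨AddCircle.haarAddCircle⟩

local instance : IsProbabilityMeasure (volume : Measure UnitAddCircle) :=
  inferInstanceAs (IsProbabilityMeasure AddCircle.haarAddCircle)

variable {ι : Type} [Fintype ι] [DecidableEq ι]

omit [DecidableEq ι] in
theorem trig_apply (h : (ι → ℤ) →₀ ℂ) (k : UnitAddTorus ι) :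
    trig h k = h.sum fun n c => c * UnitAddTorus.mFourier n k := by
  unfold trig Finsupp.sum
  rw [ContinuousMap.coe_sum, Finset.sum_apply]
  rfl

/-- evaluation of a character -/
def chr (k : UnitAddTorus ι) : Multiplicative (ι → ℤ) →* ℂ where
  toFun n := UnitAddTorus.mFourier n.toAdd k
  map_one' := by
    show UnitAddTorus.mFourier (0 : ι → ℤ) k = 1
    rw [UnitAddTorus.mFourier_zero]; rfl
  map_mul' a b := by
    show UnitAddTorus.mFourier (a.toAdd + b.toAdd) k = _
    rw [UnitAddTorus.mFourier_add]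

/-- the shift matrices -/
def shf (ℓ : ℕ) [NeZero ℓ] :
    Multiplicative (ι → ℤ) →* Matrix (ι → ZMod ℓ) (ι → ZMod ℓ) ℂ where
  toFun n := fun i j => if (fun i => ((n.toAdd i : ℤ) : ZMod ℓ)) = i - j then 1 else 0
  map_one' := by
    ext i j
    rw [Matrix.one_apply]
    congr 1
    rw [eq_iff_iff]
    constructor
    · intro h
      have h2 : i - j = 0 := by
        rw [← h]; funext i; simp
      exact sub_eq_zero.1 h2
    · rintro rfl
      rw [sub_self]; funext i; simp
  map_mul' a b := by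
    ext i j
    rw [Matrix.mul_apply]
    rw [Finset.sum_eq_single (j + fun i => ((b.toAdd i : ℤ) : ZMod ℓ))]
    · rw [if_pos (show (fun i => ((b.toAdd i : ℤ) : ZMod ℓ)) =
        (j + fun i => ((b.toAdd i : ℤ) : ZMod ℓ)) - j by rw [add_sub_cancel_left]), mul_one]
      congr 1
      rw [eq_iff_iff, toAdd_mul]
      constructor
      · intro h
        rw [← sub_sub, ← h]
        funext i; simp
      · intro h
        have h2 : i - j = (fun i => ((a.toAdd i : ℤ) : ZMod ℓ)) +
            fun i => ((b.toAdd i : ℤ) : ZMod ℓ) := by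
          rw [h]; abel
        rw [h2]
        funext i; simp
    · intro k _ hk
      rw [if_neg (show ¬ ((fun i => ((b.toAdd i : ℤ) : ZMod ℓ)) = k - j) from fun h => hk (by
        rw [h]; abel)), mul_zero]
    · intro h; exact absurd (Finset.mem_univ _) h

omit [DecidableEq ι] in
theorem lift_chr (x : AddMonoidAlgebra ℂ (ι → ℤ)) (k : UnitAddTorus ι) :
    AddMonoidAlgebra.lift ℂ ℂ (ι → ℤ) (chr k) x = trig x.coeff k := by
  rw [AddMonoidAlgebra.lift_apply, trig_apply]
  rfl

theorem lift_shf (x : AddMonoidAlgebra ℂ (ι → ℤ)) (ℓ : ℕ) [NeZero ℓ] :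
    AddMonoidAlgebra.lift ℂ _ (ι → ℤ) (shf ℓ) x = circ ℓ x.coeff := by
  rw [AddMonoidAlgebra.lift_apply]
  ext i j
  unfold circ
  rw [Finsupp.mapDomain, Finsupp.sum, Finsupp.sum, Finsupp.finsetSum_apply, Matrix.sum_apply]
  refine Finset.sum_congr rfl fun n _ => ?_
  rw [Finsupp.single_apply, Matrix.smul_apply]
  show _ • (if _ then _ else _) = _
  simp only [toAdd_ofAdd, smul_eq_mul]
  split_ifs <;> simp

omit [DecidableEq ι] in
theorem integral_mFourier (n : ι → ℤ) :
    (∫ t : UnitAddTorus ι, UnitAddTorus.mFourier n t) = if n = 0 then (1 : ℂ) else 0 := by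
  classical
  have h1 := (orthonormal_iff_ite.1 (UnitAddTorus.orthonormal_mFourier (d := ι))) 0 n
  rw [ContinuousMap.inner_toLp] at h1
  rw [show (if (0 : ι → ℤ) = n then (1 : ℂ) else 0) = if n = 0 then 1 else 0 by
    simp only [eq_comm]] at h1
  rw [← h1]
  refine integral_congr_ae (Filter.Eventually.of_forall fun t => ?_)
  simp [UnitAddTorus.mFourier_zero]

omit [DecidableEq ι] in
theorem coeff_trig (h : (ι → ℤ) →₀ ℂ) (γ : ι → ℤ) :
    UnitAddTorus.mFourierCoeff (fun k => trig h k) γ = h γ := by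
  classical
  unfold UnitAddTorus.mFourierCoeff
  have h1 : ∀ t : UnitAddTorus ι, UnitAddTorus.mFourier (-γ) t • trig h t =
      ∑ n ∈ h.support, h n * UnitAddTorus.mFourier (n - γ) t := by
    intro t
    rw [trig_apply, Finsupp.sum, smul_eq_mul, Finset.mul_sum]
    refine Finset.sum_congr rfl fun n _ => ?_
    rw [sub_eq_neg_add, UnitAddTorus.mFourier_add]
    ring
  simp_rw [h1]
  rw [integral_finsetSum]
  · simp_rw [integral_const_mul, integral_mFourier, sub_eq_zero]
    rw [Finset.sum_eq_single γ]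
    · simp
    · intro b _ hb
      rw [if_neg hb, mul_zero]
    · intro h2
      rw [if_pos rfl, mul_one]
      exact Finsupp.notMem_support_iff.1 h2
  · intro n _
    apply Integrable.const_mul
    refine Integrable.of_bound (ContinuousMap.continuous _).aestronglyMeasurable 1
      (Filter.Eventually.of_forall fun t => ?_)
    exact (ContinuousMap.norm_coe_le_norm _ t).trans UnitAddTorus.mFourier_norm.le

theorem main : S_CIRC2 := by
  intro ι _ _ h f hf c n₀
  classical
  let H : ℕ → AddMonoidAlgebra ℂ (ι → ℤ) := fun n => ch c (AddMonoidAlgebra.ofCoeff h) n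
  obtain ⟨M, hM⟩ : ∃ M : ℕ, ∀ n ≤ n₀, ∀ x ∈ (H n).coeff.support, ∀ i, |x i| ≤ M := by
    refine ⟨∑ n ∈ Finset.range (n₀ + 1), ∑ x ∈ (H n).coeff.support, ∑ i, (x i).natAbs,
      fun n hn x hx i => ?_⟩
    rw [Int.abs_eq_natAbs]
    have h1 : (x i).natAbs ≤ ∑ i, (x i).natAbs :=
      Finset.single_le_sum (f := fun i => (x i).natAbs) (fun _ _ => Nat.zero_le _)
        (Finset.mem_univ i)
    have h2 : ∑ i, (x i).natAbs ≤ ∑ x ∈ (H n).coeff.support, ∑ i, (x i).natAbs :=
      Finset.single_le_sum (f := fun x : ι → ℤ => ∑ i, (x i).natAbs)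
        (fun _ _ => Nat.zero_le _) hx
    have h3 : ∑ x ∈ (H n).coeff.support, ∑ i, (x i).natAbs ≤
        ∑ n ∈ Finset.range (n₀ + 1), ∑ x ∈ (H n).coeff.support, ∑ i, (x i).natAbs :=
      Finset.single_le_sum (f := fun n => ∑ x ∈ (H n).coeff.support, ∑ i, (x i).natAbs)
        (fun _ _ => Nat.zero_le _) (Finset.mem_range.2 (by omega))
    exact_mod_cast h1.trans (h2.trans h3)
  refine ⟨2 * M + 1, fun ℓ _ hℓ n hn i j => ?_⟩
  have hmat : ch c (circ ℓ h) n = circ ℓ (H n).coeff := by
    rw [← lift_shf]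
    have h1 := (ch_map ((AddMonoidAlgebra.lift ℂ _ (ι → ℤ) (shf ℓ)).restrictScalars ℝ) c
      (AddMonoidAlgebra.ofCoeff h) n).1
    rw [AlgHom.restrictScalars_apply, AlgHom.restrictScalars_apply, lift_shf] at h1
    exact h1.symm
  have hfun : ∀ k : UnitAddTorus ι, ((ch c (f k) n : ℝ) : ℂ) = trig (H n).coeff k := by
    intro k
    rw [← lift_chr]
    have h1 := (ch_map ((AddMonoidAlgebra.lift ℂ _ (ι → ℤ) (chr k)).restrictScalars ℝ) c
      (AddMonoidAlgebra.ofCoeff h) n).1
    have h4 : AddMonoidAlgebra.lift ℂ ℂ (ι → ℤ) (chr k) (AddMonoidAlgebra.ofCoeff h) = trig h k :=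
      lift_chr _ _
    rw [AlgHom.restrictScalars_apply, AlgHom.restrictScalars_apply, h4] at h1
    have h2 := (ch_map (Algebra.ofId ℝ ℂ) c (f k) n).1
    have h3 : (Algebra.ofId ℝ ℂ) (f k) = trig h k := by
      rw [← hf k]; rfl
    rw [h3] at h2
    exact h2.trans h1.symm
  have hco : ∀ γ, UnitAddTorus.mFourierCoeff (fun k => ((ch c (f k) n : ℝ) : ℂ)) γ =
      (H n).coeff γ := by
    intro γ
    simp_rw [hfun]
    exact coeff_trig _ _
  simp_rw [hco, hmat]
  unfold circ
  set g := (H n).coeff with hg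
  have hinj : Set.InjOn (fun (n : ι → ℤ) (i : ι) => ((n i : ℤ) : ZMod ℓ)) (g.support : Set (ι → ℤ)) := by
    intro x hx y hy hxy
    funext i
    have h1 := congrFun hxy i
    simp only at h1
    have h2 := (ZMod.intCast_eq_intCast_iff_dvd_sub _ _ _).1 h1
    have h3 := hM n hn x hx i
    have h4 := hM n hn y hy i
    have h5 : y i - x i = 0 := by
      apply Int.eq_zero_of_abs_lt_dvd h2
      have h6 := abs_sub (y i) (x i)
      have h7 : (2 * M + 1 : ℤ) ≤ ℓ := by exact_mod_cast hℓ
      linarith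
    omega
  by_cases hex : ∃ x ∈ g.support, (fun i => ((x i : ℤ) : ZMod ℓ)) = i - j
  · obtain ⟨x, hx, hxij⟩ := hex
    refine ⟨x, ?_⟩
    rw [← hxij]
    rw [Finsupp.mapDomain_apply' (g.support : Set (ι → ℤ)) g (le_refl _) hinj hx]
  · refine ⟨0, ?_⟩
    have h1 : Finsupp.mapDomain (fun (n : ι → ℤ) (i : ι) => ((n i : ℤ) : ZMod ℓ)) g (i - j) = 0 := by
      rw [← Finsupp.notMem_support_iff]
      intro h2
      have h3 := Finsupp.mapDomain_support h2
      rw [Finset.mem_image] at h3
      obtain ⟨x, hx, hxe⟩ := h3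
      exact hex ⟨x, hx, hxe⟩
    rw [h1, norm_zero]
    exact norm_nonneg _

end

end Pool.Agent.W930.GKCirc2
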