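import Pool.Agent.W792.GK.Stm

/-! GK project (helper792), part GK-INJ (helper930): generic dilations avoid finitely many
relations. -/

set_option autoImplicit false

namespace Pool.Agent.W930.GKInj

open Pool.Agent.W792.GK Polynomial

theorem exists_poly {d r : ℕ} (x : (Fin d → ℤ) × (Fin d × Fin r → ℤ)) (hx : x ≠ 0) :
    ∃ q : ℤ[X], q ≠ 0 ∧ ∀ t : ℤ, q.eval t ≠ 0 →
      phiN (fun l : Fin r => t ^ ((l : ℕ) + 1)) x ≠ 0 := by
  obtain ⟨p, j⟩ := x
  by_cases hj : j = 0
  · refine ⟨1, one_ne_zero, fun t _ h0 => hx ?_⟩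
    have h1 : p = 0 := by
      funext i
      have h2 := congrFun h0 i
      simpa [phiN, hj] using h2
    rw [h1, hj]; rfl
  · obtain ⟨⟨i, l0⟩, hl⟩ := Function.ne_iff.1 hj
    refine ⟨C (p i) + ∑ l : Fin r, C (j (i, l)) * X ^ ((l : ℕ) + 1), ?_, ?_⟩
    · intro h0
      have h1 := congrArg (fun q => q.coeff ((l0 : ℕ) + 1)) h0
      simp only [coeff_add, finsetSum_coeff, coeff_C_mul, coeff_X_pow, coeff_zero] at h1
      rw [coeff_C_of_ne_zero (by omega), zero_add, Finset.sum_eq_single l0] at h1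
      · apply hl
        simpa using h1
      · intro b _ hb
        rw [if_neg, mul_zero]
        intro h2
        exact hb (Fin.ext (by omega))
      · intro h2; exact absurd (Finset.mem_univ _) h2
    · intro t ht h0
      apply ht
      have h2 := congrFun h0 i
      simp only [phiN, AddMonoidHom.coe_mk, ZeroHom.coe_mk, Pi.zero_apply] at h2
      rw [eval_add, eval_C, eval_finsetSum, ← h2]
      congr 1
      refine Finset.sum_congr rfl fun l _ => ?_
      rw [eval_mul, eval_C, eval_pow, eval_X, mul_comm]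

theorem main : S_INJ := by
  classical
  intro d r F
  choose! q hq0 hq using fun (x : (Fin d → ℤ) × (Fin d × Fin r → ℤ)) (hx : x ≠ 0) =>
    exists_poly x hx
  have h1 : ∏ x ∈ F.filter (fun x => x ≠ 0), q x ≠ 0 :=
    Finset.prod_ne_zero_iff.2 fun x hx => hq0 x (Finset.mem_filter.1 hx).2
  obtain ⟨t, ht⟩ : ∃ t : ℤ, (∏ x ∈ F.filter (fun x => x ≠ 0), q x).eval t ≠ 0 := by
    by_contra hc
    push Not at hc
    exact h1 (Polynomial.funext fun t => by rw [hc t, eval_zero])
  rw [eval_prod, Finset.prod_ne_zero_iff] at ht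
  refine ⟨fun l => t ^ ((l : ℕ) + 1), fun x hx h0 => ?_⟩
  by_contra hx0
  exact hq x hx0 t (ht x (Finset.mem_filter.2 ⟨hx, hx0⟩)) h0

end Pool.Agent.W930.GKInj
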